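import Mathlib
import Pool.Agent.K1H33.Dim.Mfd

/-!
# Critical sets of the iterates of a meromorphic self-map

Let `X` be a compact complex manifold of dimension `k` (Kähler or not) and `f` a dominant
meromorphic self-map of `X` with graph `Γ_f`. If the image in `X` of the critical set `C_f`
(the set of the points of `Γ_f` at which the fibre of the second projection has positive
dimension) has codimension at least `p`, the same holds for all the iterates of `f`.

Idea. Write `Γ_n` and `C_n` for the graph and the critical set of the `n`-th iterate. Every point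
`(x, y)` of `C_(n+1)` has a midpoint `z` with `(x, z)` in `Γ_1`, `(z, y)` in `Γ_n` and `(x, z)` in
`C_1` or `(z, y)` in `C_n` (a limit argument). So the image of `C_(n+1)` lies in the union of the
image of `C_1` and of the set of the points `x` such that some `(x, z)` in `Γ_1 ∖ C_1` has `z` in
the image of `C_n`. Over `Γ_1 ∖ C_1` the second projection has discrete fibres and does not
decrease dimensions: an analytic set with discrete fibres for `g` is, outside of a smaller analytic
set, locally the Lipschitz image of its image under `g` (`Pool.Agent.K1H33.Dim.dimH_fibre`).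
-/

set_option autoImplicit false

open Set Topology Filter
open scoped ENNReal Manifold ContDiff

namespace Pool.Agent.Results.MP_0e2c99_an.CriticalIterates

/-- The model space `ℂ ^ k`. -/
abbrev Cn (k : ℕ) : Type := EuclideanSpace ℂ (Fin k)

/-- `A` is an analytic subset of the complex manifold `M`: near every point of `M` it is the common
zero set of finitely many holomorphic functions. -/
def IsAnalyticSubset {E H : Type*} [NormedAddCommGroup E] [NormedSpace ℂ E] [TopologicalSpace H]
    (I : ModelWithCorners ℂ E H) {M : Type*} [TopologicalSpace M] [ChartedSpace H M]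
    (A : Set M) : Prop :=
  ∀ x : M, ∃ U : Set M, IsOpen U ∧ x ∈ U ∧ ∃ (m : ℕ) (F : Fin m → M → ℂ),
    (∀ i, ContMDiffOn I 𝓘(ℂ, ℂ) ω (F i) U) ∧ A ∩ U = {y | y ∈ U ∧ ∀ i, F i y = 0}

/-- A dominant meromorphic self-map of the complex manifold `X` of dimension `k`: a holomorphic map
`toFun` on a dense open set `dom` such that the closure of its graph is an analytic subset of
`X × X`, with dense image. -/
structure DominantMeromorphic (k : ℕ) (X : Type*) [TopologicalSpace X]
    [ChartedSpace (Cn k) X] where
  /-- the dense open set -/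
  dom : Set X
  /-- the map; its values outside of `dom` do not matter -/
  toFun : X → X
  isOpen_dom : IsOpen dom
  dense_dom : Dense dom
  holomorphic : ContMDiffOn 𝓘(ℂ, Cn k) 𝓘(ℂ, Cn k) ω toFun dom
  analytic : IsAnalyticSubset ((𝓘(ℂ, Cn k)).prod 𝓘(ℂ, Cn k))
    (closure {q : X × X | q.1 ∈ dom ∧ q.2 = toFun q.1})
  dominant : Dense (toFun '' dom)

variable {k : ℕ} {X : Type*} [TopologicalSpace X] [ChartedSpace (Cn k) X]

/-- The graph of the `n`-th iterate of `f`: the closure of the graph of the composition
`f ∘ ... ∘ f` over the open set where this composition is defined. For `n = 1` this is the graph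
of `f`. -/
def DominantMeromorphic.iterGraph (f : DominantMeromorphic k X) (n : ℕ) : Set (X × X) :=
  closure {q | (∀ i < n, f.toFun^[i] q.1 ∈ f.dom) ∧ q.2 = f.toFun^[n] q.1}

/-- The critical set of the correspondence `Γ`: the (closure of the) set of the points of `Γ` that
are not isolated in their fibre for the second projection `π₂`, that is, at which the fibre of
`π₂` restricted to `Γ` has positive dimension. -/
def critical (Γ : Set (X × X)) : Set (X × X) :=
  closure {q | q ∈ Γ ∧ ∃ᶠ x in 𝓝[≠] q.1, (x, q.2) ∈ Γ}

/-- `A` has codimension at least `p` in the complex manifold `X` of dimension `k`: in every chart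
the Hausdorff dimension of `A` (twice the complex dimension for an analytic set) is at most
`2 (k - p)`. -/
def CodimGE (k p : ℕ) {X : Type*} [TopologicalSpace X] [ChartedSpace (Cn k) X] (A : Set X) :
    Prop :=
  ∀ x₀ : X, dimH (chartAt (Cn k) x₀ '' (A ∩ (chartAt (Cn k) x₀).source)) ≤
    ((2 * (k - p) : ℕ) : ℝ≥0∞)

/-- **Critical sets of iterates.** Let `f` be a dominant meromorphic self-map of the compact
complex manifold `X` of dimension `k` and `1 ≤ p ≤ k`. If the image of the critical set of `f` under
the first projection has codimension at least `p`, then so does the image of the critical set of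
every iterate of `f`. Moreover the critical set of the iterate is contained in every analytic subset
`C` of the graph such that the fibres of the second projection restricted to the complement of `C`
in the graph are discrete. -/
theorem result {k : ℕ} {X : Type*} [TopologicalSpace X] [T2Space X] [CompactSpace X]
    [ChartedSpace (Cn k) X] [IsManifold 𝓘(ℂ, Cn k) ω X] (f : DominantMeromorphic k X)
    (p : ℕ) (_hp : 1 ≤ p) (_hpk : p ≤ k) :
    (CodimGE k p (Prod.fst '' critical (f.iterGraph 1)) →
      ∀ n : ℕ, 1 ≤ n → CodimGE k p (Prod.fst '' critical (f.iterGraph n))) ∧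
    ∀ n : ℕ, ∀ C : Set (X × X), IsAnalyticSubset ((𝓘(ℂ, Cn k)).prod 𝓘(ℂ, Cn k)) C →
      C ⊆ f.iterGraph n →
      (∀ q ∈ f.iterGraph n \ C, ∀ᶠ x in 𝓝[≠] q.1, (x, q.2) ∉ f.iterGraph n \ C) →
      critical (f.iterGraph n) ⊆ C := by
  refine ⟨fun h n hn => ?_, ?_⟩
  · induction n, hn using Nat.le_induction with
    | base => exact h
    | succ n hn ih =>
      have hg1 : f.iterGraph 1 = closure {q : X × X | q.1 ∈ f.dom ∧ q.2 = f.toFun q.1} := by
        simp [DominantMeromorphic.iterGraph]
      have hcl : ∀ m, IsClosed (f.iterGraph m) := fun m => isClosed_closure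
      have hsub : f.iterGraph (n + 1) ⊆ K1H33.Dim.comp (f.iterGraph 1) (f.iterGraph n) := by
        refine closure_minimal ?_ (K1H33.Dim.comp_closed (hcl 1) (hcl n))
        rintro ⟨x, y⟩ ⟨h1, h2⟩
        simp only at h1 h2
        refine ⟨f.toFun x, subset_closure ⟨fun i hi => ?_, rfl⟩, subset_closure ⟨fun i hi => ?_, ?_⟩⟩
        · exact h1 i (by omega)
        · have := h1 (i + 1) (by omega)
          rwa [Function.iterate_succ_apply] at this
        · rw [h2, Function.iterate_succ_apply]
      have hcrit := K1H33.Dim.crit_comp (hcl 1) (hcl n) hsub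
      have hstep : K1H33.Dim.DimLE (Cn k) ((2 * (k - p) : ℕ) : ℝ≥0∞)
          (Prod.fst '' {q | q ∈ f.iterGraph 1 ∧ q ∉ critical (f.iterGraph 1) ∧
            q.2 ∈ Prod.fst '' critical (f.iterGraph n)}) := by
        refine K1H33.Dim.dim_step (by rw [hg1]; exact f.analytic) isClosed_closure ?_ ih
        intro q hq hqC
        by_contra hcon
        exact hqC (subset_closure ⟨hq, hcon⟩)
      refine (K1H33.Dim.DimLE.union h hstep).mono ?_
      rintro _ ⟨⟨x, y⟩, hq, rfl⟩
      rcases hcrit hq with ⟨z, h1, -⟩ | ⟨z, h1, h2⟩
      · exact Or.inl ⟨(x, z), h1, rfl⟩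
      · by_cases h3 : (x, z) ∈ critical (f.iterGraph 1)
        · exact Or.inl ⟨(x, z), h3, rfl⟩
        · exact Or.inr ⟨(x, z), ⟨h1, h3, (z, y), h2, rfl⟩, rfl⟩
  · intro n C hC hCs hfib
    have hCc : IsClosed C := by
      rw [← isOpen_compl_iff, isOpen_iff_mem_nhds]
      intro x hx
      obtain ⟨U, hU, hxU, m, F, hF, hFU⟩ := hC x
      have h1 : ∃ i, F i x ≠ 0 := by
        by_contra hcon
        push Not at hcon
        have : x ∈ C ∩ U := by rw [hFU]; exact ⟨hxU, hcon⟩
        exact hx this.1
      obtain ⟨i, hi⟩ := h1
      have h2 : ContinuousAt (F i) x := ((hF i).continuousOn).continuousAt (hU.mem_nhds hxU)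
      filter_upwards [h2.eventually_ne hi, hU.mem_nhds hxU] with y hy1 hy2 hyC
      have h3 : y ∈ C ∩ U := ⟨hyC, hy2⟩
      rw [hFU] at h3
      exact hy1 (h3.2 i)
    refine closure_minimal ?_ hCc
    rintro q ⟨hq, hfr⟩
    by_contra hqC
    have h1 := hfib q ⟨hq, hqC⟩
    have h2 : ∀ᶠ x in 𝓝[≠] q.1, (x, q.2) ∉ C := by
      apply eventually_nhdsWithin_of_eventually_nhds
      have h3 : Tendsto (fun x => (x, q.2)) (𝓝 q.1) (𝓝 q) := by
        have : Continuous (fun x : X => (x, q.2)) := by fun_prop
        exact this.tendsto q.1
      exact h3.eventually (hCc.isOpen_compl.mem_nhds hqC)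
    obtain ⟨x, hx, hx1, hx2⟩ := (hfr.and_eventually (h1.and h2)).exists
    exact hx1 ⟨hx, hx2⟩

end Pool.Agent.Results.MP_0e2c99_an.CriticalIterates
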